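import Pool.Agent.Helper14.LE.St

set_option autoImplicit false

namespace Pool.Agent.Helper24.LE

open Pool.Agent.Helper14.LK Pool.Agent.Helper14.LE
open scoped ContDiff Topology
open MeasureTheory Set Filter

theorem hSYM (hIET : StIET) : StSYM := by
  intro n hn φ ψ R hφ hψ hs hfar
  have h0 : 0 < n := by omega
  set R' : ℝ := max R 1 with hR'
  have hRR : R ≤ R' := le_max_left _ _
  have hR0 : 0 ≤ R' := le_trans zero_le_one (le_max_right _ _)
  obtain ⟨v, hv⟩ : ∃ v : EE n, ‖v‖ = R' := by
    refine ⟨EuclideanSpace.single ⟨0, h0⟩ R', ?_⟩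
    rw [EuclideanSpace.norm_single, Real.norm_eq_abs, abs_of_nonneg hR0]
  let ι : ℝ → EE n → WW n := fun t x => φ (x, (1 - t) • v) - (0, (1 - t) • v)
  have hc : ∀ t : ℝ, ∀ x, HasFDerivAt (ι t) ((fderiv ℝ φ (x, (1 - t) • v)).comp
      (ContinuousLinearMap.inl ℝ (EE n) (EE n))) x := by
    intro t x
    have h1 : HasFDerivAt (fun x : EE n => ((x, (1 - t) • v) : WW n))
        (ContinuousLinearMap.inl ℝ (EE n) (EE n)) x := hasFDerivAt_prodMk_left x _
    have h2 : HasFDerivAt φ (fderiv ℝ φ (x, (1 - t) • v)) (x, (1 - t) • v) :=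
      (hφ.differentiable (by simp) _).hasFDerivAt
    exact (h2.comp x h1).sub_const _
  have hd : ∀ t x u, fderiv ℝ (ι t) x u = fderiv ℝ φ (x, (1 - t) • v) (u, 0) := by
    intro t x u
    rw [(hc t x).fderiv]
    rfl
  have key : HamIsotopic (Set.range (ι 0)) (Set.range (ι 1)) := by
    apply hIET n hn ι R'
    · have e : Function.uncurry ι = fun p : ℝ × EE n => φ (p.2, (1 - p.1) • v) - (0, (1 - p.1) • v) := by
        funext p
        rfl
      rw [e]
      have h1 : ContDiff ℝ ∞ fun p : ℝ × EE n => (1 - p.1) • v :=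
        (contDiff_const.sub contDiff_fst).smul contDiff_const
      exact (hφ.comp (contDiff_snd.prodMk h1)).sub (contDiff_const.prodMk h1)
    · intro t _ x u w
      rw [hd, hd, hs]
      simp [om]
    · intro t _ x u hu
      rw [hd] at hu
      have h1 : ((u, 0) : WW n) = 0 := by
        apply eq_of_om_eq
        intro c
        rw [← hs (x, (1 - t) • v) (u, 0) c, hu, om_zero_left, om_zero_left]
      exact congrArg Prod.fst h1
    · intro t _ x x' hx
      have h1 : φ (x, (1 - t) • v) = φ (x', (1 - t) • v) := sub_left_injective hx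
      have h2 := congrArg ψ h1
      rw [hψ, hψ] at h2
      exact congrArg Prod.fst h2
    · intro t _ x hx
      have h1 : R ≤ ‖((x, (1 - t) • v) : WW n)‖ := le_trans hRR (le_trans hx (norm_fst_le ((x, (1 - t) • v) : WW n)))
      simp only [ι]
      rw [hfar _ h1]
      ext <;> simp
  have e0 : Set.range (ι 0) = Plane n := by
    have h1 : ∀ x, ι 0 x = (x, 0) := by
      intro x
      have h2 : R ≤ ‖((x, (1 - (0 : ℝ)) • v) : WW n)‖ := by
        refine le_trans hRR (le_trans (le_of_eq ?_) (norm_snd_le ((x, (1 - (0 : ℝ)) • v) : WW n)))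
        simp [hv]
      simp only [ι]
      rw [hfar _ h2]
      ext <;> simp
    ext w
    constructor
    · rintro ⟨x, rfl⟩
      rw [h1]
      rfl
    · intro hw
      refine ⟨w.1, ?_⟩
      rw [h1]
      have : w.2 = 0 := hw
      rw [← this]
  have e1 : Set.range (ι 1) = φ '' Plane n := by
    have h1 : ∀ x, ι 1 x = φ (x, 0) := by
      intro x
      simp [ι]
    ext w
    constructor
    · rintro ⟨x, rfl⟩
      rw [h1]
      exact ⟨(x, 0), rfl, rfl⟩
    · rintro ⟨y, hy, rfl⟩
      refine ⟨y.1, ?_⟩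
      rw [h1]
      have : y.2 = 0 := hy
      rw [← this]
  rw [e0, e1] at key
  exact key

end Pool.Agent.Helper24.LE
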